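import Mathlib
import Pool.Agent.Helper43.Gr.Goals
import Pool.Agent.Helper43.Gm.D

/-!
# R1: the graded greedy game
-/

set_option autoImplicit false

namespace Pool.Agent.Helper43.Gr.PkR1

open Finset
open Pool.Agent.Helper43.Gm (st mv nn SS Run Pri)
open Pool.Agent.Helper43.Gm.PkD
open Pool.Agent.Lead.Sh (Inj rows triD)
open Pool.Agent.Lead.Rw (Ind')

variable {κ x ν : ℕ → ℕ} {c y z M Mx R : ℕ}

theorem run_restrict {R' : ℕ} (h : Run Mx R ν κ x) (hR : R' ≤ R) : Run Mx R' ν κ x :=
  ⟨h.ν1, h.νM, fun y hy => h.mono y (by omega), fun y hy => h.le y (by omega),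
    fun y hy => h.inc y (by omega)⟩

theorem kmono (h : Run Mx R ν κ x) {z z' : ℕ} (hz : z ≤ z') (hz' : z' < R) : κ z ≤ κ z' :=
  mono_le (run_restrict h (R' := z' + 1) (by omega)) (z' - z) z (by omega)

theorem x_inc (h : Run Mx R ν κ x) {a : ℕ} (h1 : κ a = c) (h2 : 0 < x a) :
    ∀ t, a + t < R → κ (a + t) = c → 1 + t ≤ x (a + t) := by
  intro t
  induction t with
  | zero => intro _ _; simpa using Nat.succ_le_of_lt h2
  | succ t ih =>
    intro ht hk
    have h3 : κ a ≤ κ (a + t) := kmono h (by omega) (by omega)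
    have h4 : κ (a + t) ≤ κ (a + (t + 1)) := kmono h (by omega) ht
    have h5 := ih (by omega) (by omega)
    have h6 := h.inc (a + t) (by omega) (by omega) (by
      rw [show a + t + 1 = a + (t + 1) by ring]; omega)
    rw [show a + t + 1 = a + (t + 1) by ring] at h6
    omega

/-- the row where a point starts -/
theorem start (h : Run Mx (y + 1) ν κ x) (hc : c ≤ κ y) (hn : 0 < nn κ x ν c y) :
    ∃ a ≤ y, (∀ z < a, κ z < c ∨ (κ z = c ∧ x z = 0)) ∧ y < a + ν c := by
  classical
  have hex : ∃ z, ¬ (κ z < c ∨ (κ z = c ∧ x z = 0)) := by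
    refine ⟨y, ?_⟩
    rintro (h1 | ⟨h1, h2⟩)
    · omega
    · rw [nn_eq, if_neg (by omega), if_pos h1, h2] at hn
      exact lt_irrefl _ hn
  set a := Nat.find hex with ha
  have hay : a ≤ y := by
    refine Nat.find_min' hex ?_
    rintro (h1 | ⟨h1, h2⟩)
    · omega
    · rw [nn_eq, if_neg (by omega), if_pos h1, h2] at hn
      exact lt_irrefl _ hn
  have hmin : ∀ z < a, κ z < c ∨ (κ z = c ∧ x z = 0) := fun z hz => by
    by_contra h1
    exact Nat.find_min hex hz h1
  have hspec : ¬ (κ a < c ∨ (κ a = c ∧ x a = 0)) := Nat.find_spec hex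
  refine ⟨a, hay, hmin, ?_⟩
  by_contra hcon
  have hcon' : a + ν c ≤ y := by omega
  -- moving rows
  have hmov : ∀ z, a ≤ z → z ≤ y → κ z ≤ c → κ z = c ∧ 1 + (z - a) ≤ x z := by
    intro z hz1 hz2 hz3
    have h1 : κ a ≤ κ z := kmono h hz1 (by omega)
    have h2 : κ a = c := by
      by_contra h2
      apply hspec
      left
      omega
    have h3 : 0 < x a := by
      by_contra h3
      apply hspec
      right
      exact ⟨h2, by omega⟩
    have h4 : κ z = c := by omega
    refine ⟨h4, ?_⟩
    have h5 := x_inc h h2 h3 (z - a) (by omega) (by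
      rw [show a + (z - a) = z by omega]; exact h4)
    rwa [show a + (z - a) = z by omega] at h5
  rcases Nat.eq_or_lt_of_le hc with hk | hk
  · have h1 := hmov y hay le_rfl hk.ge
    have h2 := h.le y (by omega)
    rw [h1.1] at h2
    omega
  · have h1 : nn κ x ν c y = od κ x ν c y := by
      rw [nn_eq, if_neg (by omega), if_neg (by omega)]
    have hst : st κ c y ≤ a + (mv κ x ν c y).card := by
      have hsub : (range y).filter (fun z => κ z ≤ c) ⊆ range a ∪ mv κ x ν c y := by
        intro z hz
        rw [mem_filter, mem_range] at hz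
        rw [mem_union, mem_range]
        rcases Nat.lt_or_ge z a with h2 | h2
        · exact Or.inl h2
        · right
          obtain ⟨h3, h4⟩ := hmov z h2 hz.1.le hz.2
          unfold mv
          rw [mem_filter, mem_range]
          exact ⟨hz.1, h3, by omega, by omega⟩
      unfold st
      calc _ ≤ (range a ∪ mv κ x ν c y).card := card_le_card hsub
        _ ≤ (range a).card + (mv κ x ν c y).card := card_union_le _ _
        _ = _ := by rw [card_range]
    rw [h1] at hn
    unfold od at hn
    omega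

theorem sum_rows : ∀ a, a ≤ R → ∑ z ∈ range a, (R - z) + (R - a + 1).choose 2 =
    (R + 1).choose 2 := by
  intro a
  induction a with
  | zero => intro _; simp
  | succ a ih =>
    intro ha
    have h1 := ih (by omega)
    have h2 : (R - a + 1).choose 2 = (R - a) + (R - (a + 1) + 1).choose 2 := by
      rw [show R - (a + 1) + 1 = R - a by omega, Nat.choose_succ_succ' (R - a) 1,
        Nat.choose_one_right]
    rw [sum_range_succ]
    omega

/-- Claim A -/
theorem claimA (h0 : GoalR0) {a : ℕ} (hRun : Run Mx a ν κ x) (ha : a ≤ R)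
    (hns : ∀ z < a, κ z < c ∨ (κ z = c ∧ x z = 0)) (hfill : ∀ z < a, R - z ≤ SS κ x ν z)
    (hSC : SCond M R (c + 1) ν) (hM : M < ν c) : 3 * ν c + 2 ≤ R - a := by
  have h1 : ∑ z ∈ range a, (R - z) ≤ ∑ i ∈ range c, (ν i + 1).choose 2 := by
    calc ∑ z ∈ range a, (R - z) ≤ ∑ z ∈ range a, SS κ x ν z :=
          sum_le_sum fun z hz => hfill z (mem_range.1 hz)
      _ ≤ ∑ z ∈ range a, ∑ i ∈ range c, nn κ x ν i z := by
          refine sum_le_sum fun z hz => ?_
          unfold SS
          rcases hns z (mem_range.1 hz) with h2 | ⟨h2, h3⟩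
          · exact sum_le_sum_of_subset (range_subset_range.2 (by omega))
          · rw [sum_range_succ, nn_eq κ x ν (κ z) z, if_neg (lt_irrefl _), if_pos rfl, h3, h2,
              add_zero]
      _ = ∑ i ∈ range c, ∑ z ∈ range a, nn κ x ν i z := sum_comm
      _ ≤ ∑ i ∈ range c, (ν i + 1).choose 2 :=
          sum_le_sum fun i _ => h0 Mx a ν κ x hRun i
  have h2 := hSC c (by omega) hM
  rw [sum_range_succ] at h2
  have h3 := sum_rows (R := R) a ha
  have h4 : 1 ≤ (ν c + 1).choose 2 := by
    have h5 := hRun.ν1 c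
    calc 1 = (2).choose 2 := rfl
      _ ≤ (ν c + 1).choose 2 := Nat.choose_le_choose 2 (by omega)
  by_contra hcon
  have h6 : (R - a + 1).choose 2 ≤ (3 * ν c + 2).choose 2 := Nat.choose_le_choose 2 (by omega)
  omega

/-- points with a positive value are not too large -/
theorem claimA' (h0 : GoalR0) (hRun : Run Mx (y + 1) ν κ x) (hy : y < R)
    (hfill : ∀ z ≤ y, R - z ≤ SS κ x ν z) (hSC : ∀ N, SCond M R N ν) (hc : c ≤ κ y)
    (hn : 0 < nn κ x ν c y) (hM : M < ν c) : 2 * ν c + 3 ≤ R - y := by
  obtain ⟨a, hay, hns, hlt⟩ := start hRun hc hn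
  have h1 := claimA h0 (run_restrict hRun (by omega : a ≤ y + 1)) (by omega) hns
    (fun z hz => hfill z (by omega)) (hSC _) hM
  omega

/-- fill with full points -/
theorem fillBad' (h1 : ∀ c, 1 ≤ ν c) : ∀ need k : ℕ, (∀ c, k ≤ c → ν c ≤ M) → ∃ K, k ≤ K ∧
    need ≤ ∑ c ∈ Ico k K, ν c ∧ (∑ c ∈ Ico k K, ν c ≤ need + (M - 1)) ∧
    (need = 0 → K = k) := by
  intro need
  induction need using Nat.strong_induction_on with
  | _ need ih =>
    intro k hM
    rcases Nat.eq_zero_or_pos need with h0 | h0
    · subst h0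
      exact ⟨k, le_rfl, by simp, by simp, fun _ => rfl⟩
    · rcases Nat.lt_or_ge (ν k) need with h | h
      · obtain ⟨K, hK, ha, hb, _⟩ := ih (need - ν k) (by have := h1 k; omega) (k + 1)
          (fun c hc => hM c (by omega))
        refine ⟨K, by omega, ?_, ?_, fun h => by omega⟩
        · rw [sum_eq_sum_Ico_succ_bot (by omega : k < K)]
          omega
        · rw [sum_eq_sum_Ico_succ_bot (by omega : k < K)]
          omega
      · refine ⟨k + 1, by omega, ?_, ?_, fun h => by omega⟩
        · rw [Nat.Ico_succ_singleton, sum_singleton]; exact h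
        · rw [Nat.Ico_succ_singleton, sum_singleton]
          have := hM k le_rfl
          omega

/-- the sum over the old points drops by their number -/
theorem drop' : ∑ c ∈ range (κ y), od κ x ν c (y + 1) +
      ((range (κ y)).filter (fun c => 0 < od κ x ν c y)).card ≤
      ∑ c ∈ range (κ y), od κ x ν c y := by
  rw [card_filter, ← sum_add_distrib]
  apply sum_le_sum
  intro c hc
  rw [mem_range] at hc
  have := od_succ (x := x) (ν := ν) hc
  split_ifs with h <;> omega

/-- the choice for the next row -/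
theorem choice' (h0 : GoalR0) (hanti : Antitone ν) (hSC : ∀ N, SCond M R N ν)
    (hR : Run Mx (y + 1) ν κ x) (hy : y + 1 < R)
    (hlo : ∀ z ≤ y, R - z ≤ SS κ x ν z) (hhi : SS κ x ν y ≤ R - y + M)
    (hex : (y = 0 ∨ y + 2 * M ≤ R) → SS κ x ν y = R - y)
    (hbd : 0 < y → R < y + 2 * M → x y = 0) :
    ∃ K X, κ y ≤ K ∧ X ≤ ν K ∧ (0 < x y → K = κ y → x y < X) ∧
      R - (y + 1) ≤ ∑ c ∈ range K, od κ x ν c (y + 1) + X ∧
      ∑ c ∈ range K, od κ x ν c (y + 1) + X ≤ R - (y + 1) + M ∧
      (y + 1 + 2 * M ≤ R → ∑ c ∈ range K, od κ x ν c (y + 1) + X = R - (y + 1)) ∧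
      (R < y + 1 + 2 * M → X = 0) := by
  have hd := drop' (κ := κ) (x := x) (ν := ν) (y := y)
  have hSS := SS_eq κ x ν y
  have hxle := hR.le y (by omega)
  have hν1 := hR.ν1 (κ y)
  have hloy := hlo y le_rfl
  have hex' : 0 < x y → SS κ x ν y = R - y := by
    intro h
    apply hex
    by_contra hcon
    push Not at hcon
    have := hbd (by omega) (by omega)
    omega
  -- the bound for the points with positive value
  have hbig : ∀ c ≤ κ y, 0 < nn κ x ν c y → M < ν c → 2 * ν c + 3 ≤ R - y := fun c hc hn hM =>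
    claimA' h0 hR (by omega) hlo hSC hc hn hM
  have hnnx : nn κ x ν (κ y) y = x y := by
    rw [nn_eq, if_neg (lt_irrefl _), if_pos rfl]
  have hnno : ∀ c < κ y, nn κ x ν c y = od κ x ν c y := by
    intro c hc
    rw [nn_eq, if_neg (by omega), if_neg (by omega)]
  set A := ∑ c ∈ range (κ y), od κ x ν c (y + 1) with hA
  set B := ∑ c ∈ range (κ y), od κ x ν c y with hB
  set o := ((range (κ y)).filter (fun c => 0 < od κ x ν c y)).card with ho
  rcases Nat.lt_or_ge R (y + 1 + 2 * M) with hb | hb
  · -- a bad row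
    rcases Nat.eq_zero_or_pos (x y) with hx | hx
    · have hνK : ν (κ y) ≤ M := by
        by_contra hcon
        have h1 := claimA h0 hR (by omega) (c := κ y) (fun z hz => by
          have h2 := kmono hR (z := z) (z' := y) (by omega) (by omega)
          rcases Nat.eq_or_lt_of_le h2 with h3 | h3
          · exact Or.inr ⟨h3, x_zero hR hx (y - z) z (by omega) h3⟩
          · exact Or.inl h3) (fun z hz => hlo z (by omega)) (hSC _) (by omega)
        omega
      obtain ⟨K, hK, ha, hb', hc⟩ := fillBad' hR.ν1 (R - (y + 1) - A) (κ y)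
        (fun c hc => (hanti hc).trans hνK)
      have hT := T_still hR hx hK
      rw [← hA] at hT
      have hAo : A ≤ R - (y + 1) + M := by
        rcases Nat.eq_zero_or_pos o with h1 | h1
        · have h2 : B = 0 := by
            rw [hB]
            refine sum_eq_zero fun c hc => ?_
            rw [ho, card_eq_zero, filter_eq_empty_iff] at h1
            have := h1 hc
            omega
          omega
        · omega
      refine ⟨K, 0, hK, Nat.zero_le _, by omega, by omega, ?_, by omega, fun _ => rfl⟩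
      rcases Nat.eq_zero_or_pos (R - (y + 1) - A) with h | h
      · rw [hT, hc h, Ico_self, sum_empty]
        omega
      · omega
    · have hνK : ν (κ y) ≤ M := by
        by_contra hcon
        have h1 := hbig (κ y) le_rfl (by rw [hnnx]; exact hx) (by omega)
        omega
      obtain ⟨K, hK, ha, hb', hc⟩ := fillBad' hR.ν1
        (R - (y + 1) - (A + od κ x ν (κ y) (y + 1))) (κ y + 1)
        (fun c hc => (hanti (by omega : κ y ≤ c)).trans hνK)
      have hT := T_moved hR hK
      rw [← hA] at hT
      have hv : od κ x ν (κ y) (y + 1) ≤ ν (κ y) := od_le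
      have := hex' hx
      refine ⟨K, 0, by omega, Nat.zero_le _, by omega, by omega, ?_, by omega, fun _ => rfl⟩
      rcases Nat.eq_zero_or_pos (R - (y + 1) - (A + od κ x ν (κ y) (y + 1))) with h | h
      · rw [hT, hc h, Ico_self, sum_empty]
        omega
      · omega
  · -- a good row
    have hEq : SS κ x ν y = R - y := hex (Or.inr (by omega))
    have hsm : ∀ c ≤ κ y, 0 < nn κ x ν c y → 2 * ν c + 1 ≤ R - y := by
      intro c hc hn
      rcases Nat.lt_or_ge M (ν c) with h1 | h1
      · have := hbig c hc hn h1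
        omega
      · omega
    have hB2 : 2 * B ≤ (R - y - 1) * o := by
      rw [hB, ho, card_filter, mul_sum, mul_sum]
      refine sum_le_sum fun c hc => ?_
      rw [mem_range] at hc
      split_ifs with h
      · have h1 := hsm c hc.le (by rw [hnno c hc]; exact h)
        have h2 : od κ x ν c y ≤ ν c := od_le
        omega
      · omega
    rcases Nat.eq_zero_or_pos (x y) with hx | hx
    · have ho3 : 3 ≤ o := by
        by_contra hcon
        have h1 : (R - y - 1) * o ≤ (R - y - 1) * 2 := Nat.mul_le_mul_left _ (by omega)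
        omega
      obtain ⟨K, X, hK, hX, hs, hpos⟩ := fill hR.ν1 (R - (y + 1) - A) (κ y)
      have hT := T_still hR hx hK
      rw [← hA] at hT
      exact ⟨K, X, hK, hX, by omega, by omega, by omega, fun _ => by omega, fun h => by omega⟩
    · have h2x : 2 * x y + 1 ≤ R - y := by
        have := hsm (κ y) le_rfl (by rw [hnnx]; exact hx)
        omega
      have ho2 : 2 ≤ o := by
        by_contra hcon
        have h1 : (R - y - 1) * o ≤ (R - y - 1) * 1 := Nat.mul_le_mul_left _ (by omega)
        omega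
      by_cases hcase : R - (y + 1) - A ≤ ν (κ y)
      · exact ⟨κ y, R - (y + 1) - A, le_rfl, hcase, by omega, by omega, by omega,
          fun _ => by omega, fun h => by omega⟩
      · have hv : od κ x ν (κ y) (y + 1) ≤ ν (κ y) := od_le
        obtain ⟨K, X, hK, hX, hs, hpos⟩ := fill hR.ν1
          (R - (y + 1) - (A + od κ x ν (κ y) (y + 1))) (κ y + 1)
        have hT := T_moved hR hK
        rw [← hA] at hT
        exact ⟨K, X, by omega, hX, by omega, by omega, by omega, fun _ => by omega,
          fun h => by omega⟩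

/-- the whole game -/
theorem game' (h0 : GoalR0) (M R : ℕ) (ν : ℕ → ℕ) (h1 : ∀ c, 1 ≤ ν c) (hanti : Antitone ν)
    (hSC : ∀ N, SCond M R N ν) : ∀ y, y < R →
    ∃ κ x : ℕ → ℕ, Run (max M (ν 0)) (y + 1) ν κ x ∧
      (∀ z ≤ y, R - z ≤ SS κ x ν z ∧ SS κ x ν z ≤ R - z + M) ∧
      (∀ z ≤ y, (z = 0 ∨ z + 2 * M ≤ R) → SS κ x ν z = R - z) ∧
      (∀ z ≤ y, 0 < z → R < z + 2 * M → x z = 0) := by
  intro y
  induction y with
  | zero =>
    intro _
    obtain ⟨K, X, hK, hX, hs, hpos⟩ := fill h1 R 0
    have hSS : SS (fun _ => K) (fun _ => X) ν 0 = R := by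
      rw [SS_eq, sum_congr rfl (fun c _ => od_zero), range_eq_Ico]
      exact hs
    refine ⟨fun _ => K, fun _ => X, ⟨h1, fun c => (hanti (Nat.zero_le c)).trans (le_max_right _ _),
      fun _ _ => le_rfl, fun _ _ => hX, fun _ h => absurd h (by omega)⟩, ?_, ?_, ?_⟩
    · intro z hz
      rw [show z = 0 by omega, hSS]
      omega
    · intro z hz _
      rw [show z = 0 by omega, hSS]
      omega
    · intro z hz hz'
      omega
  | succ y ih =>
    intro hy
    obtain ⟨κ, x, hR, hlh, hex, hbd⟩ := ih (by omega)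
    obtain ⟨K, X, hK, hX, hinc, hlo, hhi, hex', hbad⟩ := choice' h0 hanti hSC hR hy
      (fun z hz => (hlh z hz).1) (hlh y le_rfl).2 (hex y le_rfl) (hbd y le_rfl)
    obtain ⟨κ', x', hR', e1, e2, e3, e4, e5, e6⟩ := extend hR hK hX hinc
    rw [← e6] at hlo hhi hex'
    refine ⟨κ', x', hR', ?_, ?_, ?_⟩
    · intro z hz
      rcases Nat.lt_or_ge y z with h | h
      · rw [show z = y + 1 by omega]; exact ⟨hlo, hhi⟩
      · rw [e5 z h]; exact hlh z h
    · intro z hz hz'
      rcases Nat.lt_or_ge y z with h | h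
      · have hzy : z = y + 1 := by omega
        rw [hzy] at hz' ⊢
        exact hex' (by omega)
      · rw [e5 z h]; exact hex z h hz'
    · intro z hz hz1 hz2
      rcases Nat.lt_or_ge y z with h | h
      · have hzy : z = y + 1 := by omega
        rw [hzy] at hz2 ⊢
        rw [e4]; exact hbad (by omega)
      · rw [e2 z h]; exact hbd z h hz1 hz2

theorem goalR1 (h0 : GoalR0) : GoalR1 := by
  intro M R ν hM1 h1 hanti hSC
  rcases Nat.eq_zero_or_pos R with hR | hR
  · subst hR
    exact ⟨fun _ => 0, fun _ => 0, ⟨h1, fun c => (hanti (Nat.zero_le c)).trans (le_max_right _ _),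
      fun _ h => absurd h (by omega), fun _ h => absurd h (by omega),
      fun _ h => absurd h (by omega)⟩,
      fun _ h => absurd h (by omega), fun _ h => absurd h (by omega),
      fun _ h => absurd h (by omega)⟩
  · obtain ⟨y, rfl⟩ : ∃ y, R = y + 1 := ⟨R - 1, by omega⟩
    obtain ⟨κ, x, hR', hlh, hex, hbd⟩ := game' h0 M (y + 1) ν h1 hanti hSC y (by omega)
    exact ⟨κ, x, hR', fun z hz => hlh z (by omega), fun z hz => hex z (by omega),
      fun z hz => hbd z (by omega)⟩

end Pool.Agent.Helper43.Gr.PkR1
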